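import Pool.Agent.Helper85.KP.StE

/-! Project KP (MP_26be5b_ag), module EGT: good times. -/

set_option autoImplicit false

namespace Pool.Agent.Helper41.KP

open MeasureTheory Filter Pool.Agent.Helper52.KP Pool.Agent.Helper85.KP
open scoped Topology

private lemma diag (Q : ℕ → ℝ → Prop)
    (hQ : ∀ δ : ℝ, 0 < δ → ∀ᶠ i in atTop, Q i δ) :
    ∃ δ : ℕ → ℝ, (∀ i, 0 < δ i) ∧ Tendsto δ atTop (𝓝 0) ∧ ∀ᶠ i in atTop, Q i (δ i) := by
  classical
  let n : ℕ → ℕ := fun i => Nat.findGreatest (fun j => Q i (1 / ((j : ℝ) + 1))) i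
  have hn : Tendsto n atTop atTop := by
    rw [tendsto_atTop]
    intro b
    filter_upwards [hQ (1 / ((b : ℝ) + 1)) (by positivity), eventually_ge_atTop b] with i h1 h2
    exact Nat.le_findGreatest h2 h1
  refine ⟨fun i => 1 / ((n i : ℝ) + 1), fun i => by positivity, ?_, ?_⟩
  · exact tendsto_one_div_add_atTop_nhds_zero_nat.comp hn
  · filter_upwards [hn.eventually_ge_atTop 1] with i hi
    exact Nat.findGreatest_of_ne_zero (P := fun j => Q i (1 / ((j : ℝ) + 1))) rfl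
      (show n i ≠ 0 by omega)

theorem hEGT : StEIN → StEGT := by
  classical
  intro hEIN C r Λ k N s lam hG hS
  have hD : ∀ i, 0 < C.n * r * k i := fun i =>
    Nat.mul_pos (Nat.mul_pos hG.hn hS.hr) (hS.kpos i)
  have hder : ∀ i (t : ℝ), 0 ≤ t → HasDerivWithinAt (UD C (s i) (lam i))
      (U2 C (C.n * r * k i) (s i) (lam i) t) (Set.Ici 0) t := fun i t ht =>
    (hEIN C hG _ _ (hD i) (s i) (lam i) (hS.onb i).span t ht).2.2.2.2.1
  have hP : ∀ δ : ℝ, 0 < δ → ∀ᶠ i in atTop,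
      ∃ t : ℝ, 0 ≤ t ∧ t ≤ δ ∧ U2 C (C.n * r * k i) (s i) (lam i) t ≤ δ := by
    intro δ hδ
    filter_upwards [hS.slope (δ ^ 2) (by positivity)] with i hi
    have hcont : ContinuousOn (UD C (s i) (lam i)) (Set.Icc 0 δ) := fun t ht =>
      ((hder i t ht.1).continuousWithinAt).mono Set.Icc_subset_Ici_self
    have hd : ∀ t ∈ Set.Ioo 0 δ, HasDerivAt (UD C (s i) (lam i))
        (U2 C (C.n * r * k i) (s i) (lam i) t) t := fun t ht =>
      (hder i t ht.1.le).hasDerivAt (Ici_mem_nhds ht.1)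
    obtain ⟨c, hc, he⟩ := exists_hasDerivAt_eq_slope (UD C (s i) (lam i))
      (fun t => U2 C (C.n * r * k i) (s i) (lam i) t) hδ hcont hd
    refine ⟨c, hc.1.le, hc.2.le, ?_⟩
    have he' : U2 C (C.n * r * k i) (s i) (lam i) c =
      (UD C (s i) (lam i) δ - UD C (s i) (lam i) 0) / (δ - 0) := he
    rw [he', sub_zero, div_le_iff₀ hδ]
    have := hi δ hδ.le
    nlinarith
  obtain ⟨δ, hδ0, hδ, hev⟩ := diag (fun i δ =>
    ∃ t : ℝ, 0 ≤ t ∧ t ≤ δ ∧ U2 C (C.n * r * k i) (s i) (lam i) t ≤ δ) hP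
  let t : ℕ → ℝ := fun i =>
    if h : ∃ t : ℝ, 0 ≤ t ∧ t ≤ δ i ∧ U2 C (C.n * r * k i) (s i) (lam i) t ≤ δ i then
      h.choose else 0
  have ht0 : ∀ i, 0 ≤ t i ∧ t i ≤ δ i := by
    intro i
    simp only [t]
    split_ifs with h
    · exact ⟨h.choose_spec.1, h.choose_spec.2.1⟩
    · exact ⟨le_refl _, (hδ0 i).le⟩
  refine ⟨t, fun i => (ht0 i).1, ?_, ?_⟩
  · exact squeeze_zero (fun i => (ht0 i).1) (fun i => (ht0 i).2) hδ
  · intro ε hε
    filter_upwards [hev, hδ.eventually_le_const hε] with i h1 h2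
    have h3 : t i = h1.choose := by
      simp only [t]
      rw [dif_pos h1]
    rw [h3]
    exact h1.choose_spec.2.2.trans h2

end Pool.Agent.Helper41.KP
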