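import Pool.Agent.Helper93.KP.St

/-!
# Project KP (MP_77e955_nt): module PTB, pointwise bounds
-/

set_option autoImplicit false

noncomputable section

namespace Pool.Agent.Helper41.KP

open Finset Filter Topology Pool.Agent.Helper93.KP
open Pool.Agent.Helper15.AB (ee Kl StDB StMT)
open Pool.Agent.Helper9.TW (iv bx Rg cc Dec WF bm ms ind UpP LoP gm Ax GUp GLo Qs fm ej)
open Pool.Agent.Helper18.TR (fam0 fam1)

private theorem sum_ite_le (X k : ℕ) (hk : k ≠ 0) :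
    ∑ m ∈ Icc 1 X, (if m ∣ k then (1 : ℝ) else 0) ≤ (k.divisors.card : ℝ) := by
  rw [Finset.sum_boole]
  have h : ((Icc 1 X).filter (fun m => m ∣ k)).card ≤ k.divisors.card := by
    refine Finset.card_le_card (fun m hm => ?_)
    rw [mem_filter] at hm
    exact Nat.mem_divisors.2 ⟨hm.2, hk⟩
  exact_mod_cast h

private theorem sum_ite_nonneg (X k : ℕ) :
    0 ≤ ∑ m ∈ Icc 1 X, (if m ∣ k then (1 : ℝ) else 0) :=
  Finset.sum_nonneg fun m _ => by split_ifs <;> norm_num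

private theorem fm_sub (i a : ℕ) (θ : ℝ) (u : ℕ) : fm i a θ u ⊆ (Qs a θ).powerset := by
  have h0 : ∀ (w b : ℕ) (Q : Finset ℕ), fam0 w b Q ⊆ Q.powerset := by
    intro w b Q T hT
    simp only [fam0, Finset.mem_filter] at hT
    exact hT.1
  have h1 : ∀ (w b : ℕ) (Q : Finset ℕ), fam1 w b Q ⊆ Q.powerset := by
    intro w b Q T hT
    simp only [fam1, Finset.mem_filter] at hT
    exact hT.1
  unfold fm
  split_ifs
  · exact h0 _ _ _
  · exact Finset.union_subset (h0 _ _ _) (h1 _ _ _)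

private theorem Qs_prime {a : ℕ} {θ : ℝ} {p : ℕ} (hp : p ∈ Qs a θ) : p.Prime := by
  unfold Qs at hp
  rw [mem_filter, mem_Icc] at hp
  exact hp.2.1

private theorem tk_le (i a : ℕ) (θ : ℝ) (u n k : ℕ) (hk : 1 ≤ k) (hkn : k < n) (hv : vk n k ≠ 0) :
    |tk i a θ u n k| ≤ ((vk n k).divisors.card : ℝ) := by
  classical
  unfold tk
  have h1 : |∑ T ∈ fm i a θ u, (-1 : ℝ) ^ T.card *
      ∏ p ∈ T, (if (p : ℤ) ∣ gk n k then (1 : ℝ) else 0)| ≤
      ∑ T ∈ fm i a θ u, (if ∀ p : ℕ, p ∈ T → (p : ℤ) ∣ gk n k then (1 : ℝ) else 0) := by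
    refine le_trans (Finset.abs_sum_le_sum_abs _ _) (Finset.sum_le_sum fun T _ => ?_)
    rw [abs_mul, abs_pow, abs_neg, abs_one, one_pow, one_mul]
    by_cases h : ∀ p ∈ T, (p : ℤ) ∣ gk n k
    · rw [if_pos h, Finset.prod_congr rfl (fun p hp => if_pos (h p hp))]
      simp
    · rw [if_neg h]
      push Not at h
      obtain ⟨p, hp, hpF⟩ := h
      rw [Finset.prod_eq_zero hp (if_neg hpF)]
      simp
  refine le_trans h1 ?_
  rw [Finset.sum_boole]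
  have h2 : ((fm i a θ u).filter (fun T : Finset ℕ => ∀ p : ℕ, p ∈ T → (p : ℤ) ∣ gk n k)).card ≤
      (vk n k).divisors.card := by
    have hpr : ∀ T ∈ (fm i a θ u).filter (fun T : Finset ℕ => ∀ p : ℕ, p ∈ T → (p : ℤ) ∣ gk n k),
        ∀ p ∈ T, p.Prime := by
      intro T hT p hp
      rw [mem_filter] at hT
      exact Qs_prime (mem_powerset.1 (fm_sub i a θ u hT.1) hp)
    refine Finset.card_le_card_of_injOn (fun T => ∏ p ∈ T, p) ?_ ?_
    · intro T hT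
      have hT' : T ∈ (fm i a θ u).filter (fun T : Finset ℕ => ∀ p : ℕ, p ∈ T → (p : ℤ) ∣ gk n k) := by
        exact_mod_cast hT
      rw [Finset.mem_coe, Nat.mem_divisors]
      refine ⟨?_, hv⟩
      refine Finset.prod_primes_dvd _ (fun p hp => (hpr T hT' p hp).prime) (fun p hp => ?_)
      rw [mem_filter] at hT'
      exact (dvd_vk n k p hk hkn).2 (hT'.2 p hp)
    · intro T hT S hS hTS
      have hT' : T ∈ (fm i a θ u).filter (fun T : Finset ℕ => ∀ p : ℕ, p ∈ T → (p : ℤ) ∣ gk n k) := by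
        exact_mod_cast hT
      have hS' : S ∈ (fm i a θ u).filter (fun T : Finset ℕ => ∀ p : ℕ, p ∈ T → (p : ℤ) ∣ gk n k) := by
        exact_mod_cast hS
      have h3 := Nat.primeFactors_prod (hpr T hT')
      have h4 := Nat.primeFactors_prod (hpr S hS')
      simp only at hTS
      rw [← h3, ← h4, hTS]
  exact_mod_cast h2

private theorem PP_le (T : ℕ) (M N B : ℝ) (al be : ℕ → ℕ → ℝ) (v : ℕ) (hv : v ≠ 0)
    (hB : ∀ t m, |al t m| ≤ B ∧ |be t m| ≤ B) :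
    |PP T M N al be v| ≤ T * B ^ 2 * (v.divisors.card : ℝ) ^ 2 := by
  have hB0 : 0 ≤ B := le_trans (abs_nonneg _) (hB 0 0).1
  have h1 : |PP T M N al be v| ≤ ∑ t ∈ range T, ∑ m ∈ Icc 1 ⌊M⌋₊, ∑ n ∈ Icc 1 ⌊N⌋₊,
      B ^ 2 * ((if m ∣ v then (1 : ℝ) else 0) * (if n ∣ v then (1 : ℝ) else 0)) := by
    unfold PP
    refine le_trans (Finset.abs_sum_le_sum_abs _ _) (Finset.sum_le_sum fun t _ => ?_)
    refine le_trans (Finset.abs_sum_le_sum_abs _ _) (Finset.sum_le_sum fun m _ => ?_)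
    refine le_trans (Finset.abs_sum_le_sum_abs _ _) (Finset.sum_le_sum fun n _ => ?_)
    rw [abs_mul, abs_mul]
    have h2 : |al t m| * |be t n| ≤ B ^ 2 := by
      rw [sq]
      exact mul_le_mul (hB t m).1 (hB t n).2 (abs_nonneg _) hB0
    by_cases h : m * n ∣ v
    · have h3 : m ∣ v := dvd_trans (Dvd.intro _ rfl) h
      have h4 : n ∣ v := dvd_trans (Dvd.intro_left _ rfl) h
      rw [if_pos h, if_pos h3, if_pos h4]
      simpa using h2
    · rw [if_neg h]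
      simp only [abs_zero, mul_zero]
      positivity
  refine le_trans h1 ?_
  have e : ∑ _t ∈ range T, ∑ m ∈ Icc 1 ⌊M⌋₊, ∑ n ∈ Icc 1 ⌊N⌋₊,
      B ^ 2 * ((if m ∣ v then (1 : ℝ) else 0) * (if n ∣ v then (1 : ℝ) else 0)) =
      T * B ^ 2 * ((∑ m ∈ Icc 1 ⌊M⌋₊, (if m ∣ v then (1 : ℝ) else 0)) *
        ∑ n ∈ Icc 1 ⌊N⌋₊, (if n ∣ v then (1 : ℝ) else 0)) := by
    simp only [← Finset.mul_sum, ← Finset.sum_mul, Finset.sum_const, card_range, nsmul_eq_mul]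
    ring
  rw [e]
  refine mul_le_mul_of_nonneg_left ?_ (by positivity)
  have hv0 : (0 : ℝ) ≤ (v.divisors.card : ℝ) := Nat.cast_nonneg _
  rw [sq]
  exact mul_le_mul (sum_ite_le _ v hv) (sum_ite_le _ v hv) (sum_ite_nonneg _ _) hv0

private theorem PC_le (T : ℕ) (M N B : ℝ) (al be : ℕ → ℕ → ℝ) (k k' n : ℕ) (hv : vk n k ≠ 0)
    (hv' : vk n k' ≠ 0) (hB : ∀ t m, |al t m| ≤ B ∧ |be t m| ≤ B) :
    |PC T M N al be k k' n| ≤ (T : ℝ) ^ 2 * B ^ 4 *
      (((vk n k).divisors.card : ℝ) ^ 2 * ((vk n k').divisors.card : ℝ) ^ 2) := by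
  have hB0 : 0 ≤ B := le_trans (abs_nonneg _) (hB 0 0).1
  have h1 : |PC T M N al be k k' n| ≤ ∑ _t ∈ range T, ∑ _s ∈ range T, ∑ m ∈ Icc 1 ⌊M⌋₊,
      ∑ l ∈ Icc 1 ⌊N⌋₊, ∑ x ∈ Icc 1 ⌊M⌋₊, ∑ y ∈ Icc 1 ⌊N⌋₊,
      B ^ 4 * (((if m ∣ vk n k then (1 : ℝ) else 0) * (if l ∣ vk n k then (1 : ℝ) else 0)) *
        ((if x ∣ vk n k' then (1 : ℝ) else 0) * (if y ∣ vk n k' then (1 : ℝ) else 0))) := by
    unfold PC
    refine le_trans (Finset.abs_sum_le_sum_abs _ _) (Finset.sum_le_sum fun t _ => ?_)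
    refine le_trans (Finset.abs_sum_le_sum_abs _ _) (Finset.sum_le_sum fun s _ => ?_)
    refine le_trans (Finset.abs_sum_le_sum_abs _ _) (Finset.sum_le_sum fun m _ => ?_)
    refine le_trans (Finset.abs_sum_le_sum_abs _ _) (Finset.sum_le_sum fun l _ => ?_)
    refine le_trans (Finset.abs_sum_le_sum_abs _ _) (Finset.sum_le_sum fun x _ => ?_)
    refine le_trans (Finset.abs_sum_le_sum_abs _ _) (Finset.sum_le_sum fun y _ => ?_)
    rw [abs_mul, abs_mul]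
    have hcd : |cd k k' m l x y| ≤ 1 := by
      unfold cd
      split_ifs <;> norm_num
    have h2 : |al t m * be t l * al s x * be s y| ≤ B ^ 4 := by
      rw [abs_mul, abs_mul, abs_mul]
      calc |al t m| * |be t l| * |al s x| * |be s y| ≤ B * B * B * B := by
            refine mul_le_mul (mul_le_mul (mul_le_mul (hB t m).1 (hB t l).2 (abs_nonneg _) hB0)
              (hB s x).1 (abs_nonneg _) (by positivity)) (hB s y).2 (abs_nonneg _) (by positivity)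
        _ = B ^ 4 := by ring
    have h3 : |cd k k' m l x y| * |al t m * be t l * al s x * be s y| ≤ B ^ 4 := by
      calc |cd k k' m l x y| * |al t m * be t l * al s x * be s y| ≤ 1 * B ^ 4 :=
            mul_le_mul hcd h2 (abs_nonneg _) (by norm_num)
        _ = B ^ 4 := one_mul _
    by_cases h : m * l ∣ vk n k ∧ x * y ∣ vk n k'
    · have i1 : m ∣ vk n k := dvd_trans (Dvd.intro _ rfl) h.1
      have i2 : l ∣ vk n k := dvd_trans (Dvd.intro_left _ rfl) h.1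
      have i3 : x ∣ vk n k' := dvd_trans (Dvd.intro _ rfl) h.2
      have i4 : y ∣ vk n k' := dvd_trans (Dvd.intro_left _ rfl) h.2
      rw [if_pos h, if_pos i1, if_pos i2, if_pos i3, if_pos i4]
      simpa using h3
    · rw [if_neg h]
      simp only [abs_zero, mul_zero]
      positivity
  refine le_trans h1 ?_
  have e : ∑ _t ∈ range T, ∑ _s ∈ range T, ∑ m ∈ Icc 1 ⌊M⌋₊,
      ∑ l ∈ Icc 1 ⌊N⌋₊, ∑ x ∈ Icc 1 ⌊M⌋₊, ∑ y ∈ Icc 1 ⌊N⌋₊,
      B ^ 4 * (((if m ∣ vk n k then (1 : ℝ) else 0) * (if l ∣ vk n k then (1 : ℝ) else 0)) *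
        ((if x ∣ vk n k' then (1 : ℝ) else 0) * (if y ∣ vk n k' then (1 : ℝ) else 0))) =
      (T : ℝ) * ((T : ℝ) * (B ^ 4 * (((∑ m ∈ Icc 1 ⌊M⌋₊, (if m ∣ vk n k then (1 : ℝ) else 0)) *
          (∑ l ∈ Icc 1 ⌊N⌋₊, (if l ∣ vk n k then (1 : ℝ) else 0))) *
        ((∑ x ∈ Icc 1 ⌊M⌋₊, (if x ∣ vk n k' then (1 : ℝ) else 0)) *
          (∑ y ∈ Icc 1 ⌊N⌋₊, (if y ∣ vk n k' then (1 : ℝ) else 0)))))) := by
    simp only [← Finset.mul_sum, ← Finset.sum_mul, Finset.sum_const, card_range, nsmul_eq_mul]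
    ring
  rw [e]
  have e1 := sum_ite_le ⌊M⌋₊ (vk n k) hv
  have e2 := sum_ite_le ⌊N⌋₊ (vk n k) hv
  have e3 := sum_ite_le ⌊M⌋₊ (vk n k') hv'
  have e4 := sum_ite_le ⌊N⌋₊ (vk n k') hv'
  have z1 := sum_ite_nonneg ⌊M⌋₊ (vk n k)
  have z2 := sum_ite_nonneg ⌊N⌋₊ (vk n k)
  have z3 := sum_ite_nonneg ⌊M⌋₊ (vk n k')
  have z4 := sum_ite_nonneg ⌊N⌋₊ (vk n k')
  have j1 := mul_le_mul e1 e2 z2 (le_trans z1 e1)
  have j2 := mul_le_mul e3 e4 z4 (le_trans z3 e3)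
  have j3 := mul_le_mul j1 j2 (mul_nonneg z3 z4) (mul_nonneg (le_trans z1 e1) (le_trans z2 e2))
  have hT : (0 : ℝ) ≤ (T : ℝ) := Nat.cast_nonneg T
  calc (T : ℝ) * ((T : ℝ) * (B ^ 4 * (((∑ m ∈ Icc 1 ⌊M⌋₊, (if m ∣ vk n k then (1 : ℝ) else 0)) *
          (∑ l ∈ Icc 1 ⌊N⌋₊, (if l ∣ vk n k then (1 : ℝ) else 0))) *
        ((∑ x ∈ Icc 1 ⌊M⌋₊, (if x ∣ vk n k' then (1 : ℝ) else 0)) *
          (∑ y ∈ Icc 1 ⌊N⌋₊, (if y ∣ vk n k' then (1 : ℝ) else 0))))))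
      ≤ (T : ℝ) * ((T : ℝ) * (B ^ 4 * (((vk n k).divisors.card : ℝ) * ((vk n k).divisors.card : ℝ) *
        (((vk n k').divisors.card : ℝ) * ((vk n k').divisors.card : ℝ))))) :=
        mul_le_mul_of_nonneg_left (mul_le_mul_of_nonneg_left
          (mul_le_mul_of_nonneg_left j3 (by positivity)) hT) hT
    _ = (T : ℝ) ^ 2 * B ^ 4 *
      (((vk n k).divisors.card : ℝ) ^ 2 * ((vk n k').divisors.card : ℝ) ^ 2) := by ring

private theorem vk_bound (a k n : ℕ) (ha : 2 ≤ a) (hk1 : 1 ≤ k) (hk : k ≤ a) (hn : n ∈ NN a) :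
    k < n ∧ 1 ≤ vk n k ∧ vk n k ≤ a ^ 5 := by
  unfold NN at hn
  rw [mem_Ioc] at hn
  obtain ⟨h1, h2⟩ := hn
  have h3 : 2 * a ≤ a ^ 2 := by nlinarith
  have h4 : k < n := by omega
  have h5 : 3 ≤ n - k := by omega
  have h6 : n - k ≤ k * (n - k) := Nat.le_mul_of_pos_left _ hk1
  refine ⟨h4, ?_, ?_⟩
  · unfold vk
    omega
  · unfold vk
    have h7 : k * (n - k) ≤ a * (4 * a ^ 2) := Nat.mul_le_mul hk (by omega)
    have h8 : a * (4 * a ^ 2) ≤ a ^ 5 := by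
      have : 4 ≤ a ^ 2 := by nlinarith
      calc a * (4 * a ^ 2) = 4 * a ^ 3 := by ring
        _ ≤ a ^ 2 * a ^ 3 := Nat.mul_le_mul_right _ this
        _ = a ^ 5 := by ring
    omega

theorem hPTB (hDB : StDB) : StPTB := by
  intro ε hε
  obtain ⟨C, hC, HD⟩ := hDB (ε / 20) (by positivity)
  refine ⟨C ^ 4, one_le_pow₀ hC, fun a k n ha hk1 hk hn => ?_⟩
  obtain ⟨b1, b2, b3⟩ := vk_bound a k n ha hk1 hk hn
  have haR : (2 : ℝ) ≤ a := by exact_mod_cast ha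
  have ha0 : (0 : ℝ) < a := by linarith
  have ha1 : (1 : ℝ) ≤ a := by linarith
  have hC0 : (0 : ℝ) ≤ C := by linarith
  have hA1 : 1 ≤ (a : ℝ) ^ (ε / 4) := Real.one_le_rpow ha1 (by positivity)
  have hA4 : ((a : ℝ) ^ (ε / 4)) ^ 4 = (a : ℝ) ^ ε := by
    rw [← Real.rpow_natCast, ← Real.rpow_mul ha0.le]
    congr 1
    push_cast
    ring
  obtain ⟨X, hX⟩ : ∃ X : ℝ, X = C * (a : ℝ) ^ (ε / 4) := ⟨_, rfl⟩
  have hX1 : 1 ≤ X := by
    rw [hX]
    calc (1 : ℝ) = 1 * 1 := by norm_num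
      _ ≤ C * (a : ℝ) ^ (ε / 4) := mul_le_mul hC hA1 (by norm_num) hC0
  have hX4 : X ^ 4 = C ^ 4 * (a : ℝ) ^ ε := by rw [hX, mul_pow, hA4]
  have hdv : ∀ v : ℕ, 1 ≤ v → v ≤ a ^ 5 → (v.divisors.card : ℝ) ≤ X := by
    intro v h1 h2
    refine le_trans (HD v h1) ?_
    rw [hX]
    refine mul_le_mul_of_nonneg_left ?_ hC0
    rw [show ε / 4 = 5 * (ε / 20) by ring, Real.rpow_mul ha0.le]
    refine Real.rpow_le_rpow (by positivity) ?_ (by positivity)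
    rw [show ((5 : ℝ)) = ((5 : ℕ) : ℝ) by norm_num, Real.rpow_natCast]
    exact_mod_cast h2
  have hv : vk n k ≠ 0 := by omega
  have d1 := hdv _ b2 b3
  have hXX : X ≤ X ^ 4 := by
    calc X = X ^ 1 := (pow_one X).symm
      _ ≤ X ^ 4 := pow_le_pow_right₀ hX1 (by norm_num)
  have hX24 : X ^ 2 ≤ X ^ 4 := pow_le_pow_right₀ hX1 (by norm_num)
  rw [← hX4]
  refine ⟨b1, b2, le_trans d1 hXX, fun i u θ => ?_, fun T M N B al be hB => ⟨?_, fun k' hk1' hk' => ?_⟩⟩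
  · exact le_trans (tk_le i a θ u n k hk1 b1 hv) (le_trans d1 hXX)
  · have hB0 : 0 ≤ B := le_trans (abs_nonneg _) (hB 0 0).1
    refine le_trans (PP_le T M N B al be _ hv hB) ?_
    refine mul_le_mul_of_nonneg_left ?_ (by positivity)
    exact le_trans (pow_le_pow_left₀ (by positivity) d1 2) hX24
  · have hB0 : 0 ≤ B := le_trans (abs_nonneg _) (hB 0 0).1
    obtain ⟨c1, c2, c3⟩ := vk_bound a k' n ha hk1' hk' hn
    have hv' : vk n k' ≠ 0 := by omega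
    have d2 := hdv _ c2 c3
    refine le_trans (PC_le T M N B al be k k' n hv hv' hB) ?_
    refine mul_le_mul_of_nonneg_left ?_ (by positivity)
    calc ((vk n k).divisors.card : ℝ) ^ 2 * ((vk n k').divisors.card : ℝ) ^ 2 ≤ X ^ 2 * X ^ 2 :=
          mul_le_mul (pow_le_pow_left₀ (by positivity) d1 2) (pow_le_pow_left₀ (by positivity) d2 2)
            (by positivity) (by positivity)
      _ = X ^ 4 := by ring

end Pool.Agent.Helper41.KP
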