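import Pool.Agent.Helper68.KP.StR

set_option autoImplicit false

namespace Pool.Agent.Helper41.KP

private lemma rga_val {P L : Type} [CommRing P] [IsDomain P] [UniqueFactorizationMonoid P]
    [Field L] [Algebra P L] (hinj : Function.Injective (algebraMap P L)) (x : L)
    (halg : IsAlgebraic P x) (hint : ¬ IsIntegral P x) :
    ∃ (g : P) (A : ValuationSubring L), Prime g ∧ (∀ p, algebraMap P L p ∈ A) ∧
      (∀ p, ¬ g ∣ p → (algebraMap P L p)⁻¹ ∈ A) ∧ x ∉ A := by
  have hfs : FaithfulSMul P L := (faithfulSMul_iff_algebraMap_injective P L).2 hinj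
  let K := FractionRing P
  let : Algebra K L := FractionRing.liftAlgebra P L
  have : IsScalarTower P K L := FractionRing.isScalarTower_liftAlgebra P L
  have halgK : IsIntegral K x := (halg.extendScalars (IsFractionRing.injective P K)).isIntegral
  have h1 : ∃ i, (minpoly K x).coeff i ∉ Set.range (algebraMap P K) := by
    by_contra! h
    apply hint
    have hl : minpoly K x ∈ Polynomial.lifts (algebraMap P K) :=
      (Polynomial.lifts_iff_coeff_lifts _).2 h
    obtain ⟨q, hq, hd, hm⟩ := Polynomial.lifts_and_degree_eq_and_monic hl (minpoly.monic halgK)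
    refine ⟨q, hm, ?_⟩
    have h2 : Polynomial.aeval x (q.map (algebraMap P K)) = 0 := by
      rw [hq]; exact minpoly.aeval K x
    rw [Polynomial.aeval_map_algebraMap] at h2
    exact h2
  obtain ⟨i, hi⟩ := h1
  obtain ⟨c, d, hcd, hmk⟩ := IsFractionRing.exists_reduced_fraction (A := P)
    ((minpoly K x).coeff i)
  have hd : ¬ IsUnit (d : P) := by
    intro hu
    apply hi
    obtain ⟨u, hu⟩ := hu
    refine ⟨c * (u⁻¹ : Pˣ), ?_⟩
    rw [← hmk, eq_comm, IsLocalization.mk'_eq_iff_eq_mul, ← map_mul, ← hu]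
    simp
  obtain ⟨g, hg, hgd⟩ := WfDvdMonoid.exists_irreducible_factor hd (nonZeroDivisors.ne_zero d.2)
  have hgp : Prime g := hg.prime
  let p : Ideal P := Ideal.span {g}
  have hpp : p.IsPrime := (Ideal.span_singleton_prime hgp.ne_zero).2 hgp
  have hS : p.primeCompl ≤ nonZeroDivisors P := p.primeCompl_le_nonZeroDivisors
  let R := Localization.subalgebra.ofField K p.primeCompl hS
  have : IsLocalization p.primeCompl R :=
    Localization.subalgebra.isLocalization_ofField K p.primeCompl hS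
  have : IsFractionRing R K := Localization.subalgebra.isFractionRing_ofField K p.primeCompl hS
  have : IsIntegrallyClosed R := isIntegrallyClosed_of_isLocalization R p.primeCompl hS
  have hxR : ¬ IsIntegral R x := by
    intro hx
    have h3 := minpoly.isIntegrallyClosed_eq_field_fractions' K hx
    have h4 : (minpoly K x).coeff i = algebraMap R K ((minpoly R x).coeff i) := by
      rw [h3, Polynomial.coeff_map]
    have h5 : (minpoly K x).coeff i ∈ R := by
      rw [h4]; exact ((minpoly R x).coeff i).2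
    obtain ⟨c', s, hs, h6⟩ := h5
    have hs' : ¬ g ∣ s := fun h => hs (Ideal.mem_span_singleton.2 h)
    have hs0 : algebraMap P K s ≠ 0 := by
      intro h0
      apply hs'
      have : s = 0 := (IsFractionRing.injective P K) (by rw [h0, map_zero])
      rw [this]; exact dvd_zero g
    have hd0 : algebraMap P K (d : P) ≠ 0 := by
      intro h0
      have : (d : P) = 0 := (IsFractionRing.injective P K) (by rw [h0, map_zero])
      exact nonZeroDivisors.ne_zero d.2 this
    have h7 : c * s = c' * d := by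
      apply IsFractionRing.injective P K
      rw [map_mul, map_mul]
      rw [← hmk, IsFractionRing.mk'_eq_div, ← div_eq_mul_inv, div_eq_div_iff hd0 hs0] at h6
      exact h6
    have h8 : g ∣ c * s := by rw [h7]; exact Dvd.dvd.mul_left hgd c'
    rcases hgp.dvd_or_dvd h8 with h9 | h9
    · exact hg.not_isUnit (hcd h9 hgd)
    · exact hs' h9
  let T : Subring L := (integralClosure R L).toSubring
  have hxT : x ∉ T := hxR
  have : IsIntegrallyClosedIn T L :=
    inferInstanceAs (IsIntegrallyClosedIn (integralClosure R L).toSubring L)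
  obtain ⟨A, hA, hxA⟩ := Subring.exists_le_valuationSubring_of_isIntegrallyClosedIn hxT
  have hRA : ∀ r : K, r ∈ R → algebraMap K L r ∈ A := by
    intro r hr
    apply hA
    have h10 : IsIntegral R (algebraMap R L ⟨r, hr⟩) := isIntegral_algebraMap
    exact h10
  refine ⟨g, A, hgp, ?_, ?_, hxA⟩
  · intro q
    rw [IsScalarTower.algebraMap_apply P K L]
    exact hRA _ (R.algebraMap_mem q)
  · intro q hq
    rw [IsScalarTower.algebraMap_apply P K L, ← map_inv₀]
    apply hRA
    refine ⟨1, q, ?_, ?_⟩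
    · intro h; exact hq (Ideal.mem_span_singleton.1 h)
    · rw [map_one, one_mul]

open MvPolynomial in
private lemma rga_mono {L : Type} [Field L] [Algebra ℂ L] (V : ℕ → Submodule ℂ L) (m : ℕ)
    (a : Fin (m + 1 + 1) → L) (hV0 : (1 : L) ∈ V 0)
    (hmul : ∀ k k' f f', f ∈ V k → f' ∈ V k' → f * f' ∈ V (k + k'))
    (ha : ∀ i, a i ∈ V 1) (hai : AlgebraicIndependent ℂ a) (A : ValuationSubring L)
    (g : MvPolynomial (Fin (m + 1 + 1)) ℂ) (hg : Prime g)
    (hA1 : ∀ p : MvPolynomial (Fin (m + 1 + 1)) ℂ, aeval a p ∈ A) 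
    (hA2 : ∀ p : MvPolynomial (Fin (m + 1 + 1)) ℂ, ¬ g ∣ p → (aeval a p)⁻¹ ∈ A) (j : ℕ) :
    ∃ M : Submodule ℂ L, M ≤ V j ∧ (∀ e ∈ M, e ≠ 0 → A.valuation e = 1) ∧
      (j / (m + 1) + 1) ^ m ≤ Module.finrank ℂ M ∧ FiniteDimensional ℂ M := by
  classical
  have hgC : ¬ g.vars = ∅ := by
    intro h
    rw [vars_eq_empty_iff_eq_C] at h
    have h0 : g.coeff 0 ≠ 0 := by
      intro h0
      apply hg.ne_zero
      rw [h, h0, map_zero]
    apply hg.not_isUnit
    rw [h]
    exact (isUnit_iff_ne_zero.2 h0).map C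
  obtain ⟨i₀, hi₀⟩ := Finset.nonempty_iff_ne_empty.2 hgC
  rw [mem_vars_iff_degreeOf_ne_zero] at hi₀
  let Φ : MvPolynomial (Fin (m + 1)) ℂ →ₗ[ℂ] L :=
    (aeval a).toLinearMap ∘ₗ (rename (R := ℂ) i₀.succAbove).toLinearMap
  have hΦ : ∀ q, Φ q = aeval a (rename i₀.succAbove q) := fun q => rfl
  have hΦinj : Function.Injective Φ := by
    intro p q hpq
    have h1 : aeval a (rename i₀.succAbove p) = aeval a (rename i₀.succAbove q) := hpq
    have h2 := hai h1
    exact rename_injective _ Fin.succAbove_right_injective h2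
  have hmon : ∀ (t : ℕ) (e : Fin (m + 1) →₀ ℕ), (∑ l, e l) = t → Φ (monomial e 1) ∈ V t := by
    intro t e he
    have h1 : Φ (monomial e 1) = ∏ l, a (i₀.succAbove l) ^ (e l) := by
      rw [hΦ, rename_monomial, aeval_monomial, map_one, one_mul, Finsupp.prod_mapDomain_index_inj
        Fin.succAbove_right_injective, Finsupp.prod_fintype]
      intro i; rw [pow_zero]
    have hpow : ∀ (i : Fin (m + 1 + 1)) (s : ℕ), a i ^ s ∈ V s := by
      intro i s
      induction s with
      | zero => rw [pow_zero]; exact hV0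
      | succ s ih => rw [pow_succ]; exact hmul s 1 _ _ ih (ha i)
    have h2 : ∀ S : Finset (Fin (m + 1)),
        ∏ l ∈ S, a (i₀.succAbove l) ^ (e l) ∈ V (∑ l ∈ S, e l) := by
      intro S
      induction S using Finset.induction_on with
      | empty => rw [Finset.prod_empty, Finset.sum_empty]; exact hV0
      | insert l S hl ih =>
        rw [Finset.prod_insert hl, Finset.sum_insert hl]
        exact hmul _ _ _ _ (hpow _ _) ih
    rw [h1, ← he]
    exact h2 Finset.univ
  let w : (Fin m → Fin (j / (m + 1) + 1)) → (Fin (m + 1) →₀ ℕ) := fun f =>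
    Finsupp.equivFunOnFinite.symm (Fin.cons (j - ∑ l, (f l : ℕ)) (fun l => (f l : ℕ)))
  have hwinj : Function.Injective w := by
    intro f f' h
    have h1 := Finsupp.equivFunOnFinite.symm.injective h
    have h2 := Fin.cons_injective2 h1
    funext l
    exact Fin.ext (congrFun h2.2 l)
  have hwsum : ∀ f, (∑ l, w f l) = j := by
    intro f
    have h1 : ∀ l, w f l = (Fin.cons (j - ∑ l, (f l : ℕ)) (fun l => (f l : ℕ)) :
      Fin (m + 1) → ℕ) l := fun l => rfl
    rw [Finset.sum_congr rfl (fun l _ => h1 l), Fin.sum_univ_succ]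
    simp only [Fin.cons_zero, Fin.cons_succ]
    apply Nat.sub_add_cancel
    calc ∑ l, (f l : ℕ) ≤ ∑ _l : Fin m, j / (m + 1) :=
          Finset.sum_le_sum (fun l _ => Nat.lt_succ_iff.1 (f l).2)
      _ = m * (j / (m + 1)) := by simp
      _ ≤ (m + 1) * (j / (m + 1)) := Nat.mul_le_mul_right _ (Nat.le_succ m)
      _ ≤ j := Nat.mul_div_le j (m + 1)
  let b : (Fin m → Fin (j / (m + 1) + 1)) → L := fun f => Φ (monomial (w f) 1)
  have hb : LinearIndependent ℂ b := by
    have h1 : LinearIndependent ℂ (fun f => (basisMonomials (Fin (m + 1)) ℂ) (w f)) :=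
      (basisMonomials (Fin (m + 1)) ℂ).linearIndependent.comp w hwinj
    have h2 := h1.map' Φ (LinearMap.ker_eq_bot.2 hΦinj)
    have h3 : b = (⇑Φ ∘ fun f => (basisMonomials (Fin (m + 1)) ℂ) (w f)) := by
      funext f
      simp only [b, Function.comp, coe_basisMonomials]
    rw [h3]
    exact h2
  refine ⟨Submodule.span ℂ (Set.range b), ?_, ?_, ?_, FiniteDimensional.span_of_finite ℂ (Set.finite_range b)⟩
  · rw [Submodule.span_le]
    rintro _ ⟨f, rfl⟩
    exact hmon j (w f) (hwsum f)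
  · intro e he he0
    have h1 : e ∈ LinearMap.range Φ := by
      have h2 : Submodule.span ℂ (Set.range b) ≤ LinearMap.range Φ := by
        rw [Submodule.span_le]
        rintro _ ⟨f, rfl⟩
        exact ⟨_, rfl⟩
      exact h2 he
    obtain ⟨q, rfl⟩ := h1
    have hq0 : q ≠ 0 := by
      rintro rfl; exact he0 (map_zero Φ)
    have hnd : ¬ g ∣ rename i₀.succAbove q := by
      rintro ⟨r, hr⟩
      have hrq : rename i₀.succAbove q ≠ 0 := by
        intro h
        apply hq0
        apply rename_injective _ (Fin.succAbove_right_injective (p := i₀))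
        rw [h, map_zero]
      have hr0 : r ≠ 0 := by
        rintro rfl
        rw [mul_zero] at hr
        exact hrq hr
      have h3 : degreeOf i₀ (rename i₀.succAbove q) = degreeOf i₀ g + degreeOf i₀ r := by
        rw [hr]; exact degreeOf_mul_eq hg.ne_zero hr0
      have h4 : i₀ ∈ (rename i₀.succAbove q).vars := by
        rw [mem_vars_iff_degreeOf_ne_zero, h3]; omega
      obtain ⟨i, -, hi⟩ := mem_vars_rename _ _ h4
      exact Fin.succAbove_ne i₀ i hi
    have h5 : A.valuation (Φ q) ≤ 1 := (A.valuation_le_one_iff _).2 (hA1 _)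
    have h6 : A.valuation (Φ q)⁻¹ ≤ 1 := (A.valuation_le_one_iff _).2 (hA2 _ hnd)
    rw [map_inv₀] at h6
    have h7 : A.valuation (Φ q) ≠ 0 := (Valuation.ne_zero_iff _).2 he0
    apply le_antisymm h5
    rwa [inv_le_one₀ (zero_lt_iff.2 h7)] at h6
  · rw [finrank_span_eq_card hb]
    simp


private lemma rga_int {P R L : Type} [CommRing P] [CommRing R] [CommRing L] [Algebra R L]
    [Algebra P L] (f : P →+* R) (hf : (algebraMap R L).comp f = algebraMap P L) (y : L)
    (hy : IsIntegral P y) : IsIntegral R y := by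
  obtain ⟨q, hq, h⟩ := hy
  exact ⟨q.map f, hq.map f, by rw [Polynomial.eval₂_map, hf]; exact h⟩

private lemma rga_int' {P R L : Type} [CommRing P] [CommRing R] [CommRing L] [Algebra R L]
    [Algebra P L] (f : P →+* R) (hf : (algebraMap R L).comp f = algebraMap P L)
    (hs : Function.Surjective f) (y : L)
    (hy : IsIntegral R y) : IsIntegral P y := by
  obtain ⟨q, hq, h⟩ := hy
  have hl : q ∈ Polynomial.lifts f := by
    rw [Polynomial.lifts_iff_coeff_lifts]
    intro i; exact hs _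
  obtain ⟨r, hr, -, hrm⟩ := Polynomial.lifts_and_natDegree_eq_and_monic hl hq
  refine ⟨r, hrm, ?_⟩
  rw [← hf, ← Polynomial.eval₂_map, hr]
  exact h

open Filter in
private lemma rga_fin (k₀ m : ℕ) (hk₀ : 0 < k₀) (u v : ℕ → ℕ)
    (h : ∀ K i : ℕ, i * k₀ ≤ K / 2 → v K + i * (K / 2 / (m + 1) + 1) ^ m ≤ u K) :
    ∃ c : ℝ, 0 < c ∧ ∀ᶠ K : ℕ in atTop, c * (K : ℝ) ^ (m + 1) ≤ (u K : ℝ) - v K := by
  have hk : (0 : ℝ) < k₀ := by exact_mod_cast hk₀
  refine ⟨1 / (4 * k₀) * (1 / (2 * (m + 1))) ^ m, by positivity, ?_⟩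
  filter_upwards [eventually_ge_atTop (4 * k₀)] with K hK
  have h1 := h K (K / 2 / k₀) (Nat.div_mul_le_self _ _)
  have h2 : (v K : ℝ) + (K / 2 / k₀ : ℕ) * ((K / 2 / (m + 1) : ℕ) + 1) ^ m ≤ u K := by
    exact_mod_cast h1
  have hK' : (4 : ℝ) * k₀ ≤ K := by exact_mod_cast hK
  have h3 : (K : ℝ) * (1 / (4 * k₀)) ≤ (K / 2 / k₀ : ℕ) := by
    rw [Nat.div_div_eq_div_mul]
    have h4 : K < (2 * k₀) * (K / (2 * k₀) + 1) := Nat.lt_mul_div_succ K (by positivity)
    have h5 : (K : ℝ) < (2 * k₀) * ((K / (2 * k₀) : ℕ) + 1) := by exact_mod_cast h4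
    rw [mul_one_div, div_le_iff₀ (by positivity)]
    nlinarith
  have h6 : (K : ℝ) * (1 / (2 * (m + 1))) ≤ (K / 2 / (m + 1) : ℕ) + 1 := by
    rw [Nat.div_div_eq_div_mul]
    have h4 : K < (2 * (m + 1)) * (K / (2 * (m + 1)) + 1) := Nat.lt_mul_div_succ K (by positivity)
    have h5 : (K : ℝ) < (2 * (m + 1)) * ((K / (2 * (m + 1)) : ℕ) + 1) := by exact_mod_cast h4
    rw [mul_one_div, div_le_iff₀ (by positivity)]
    nlinarith
  have h7 : ((K : ℝ) * (1 / (4 * k₀))) * ((K : ℝ) * (1 / (2 * (m + 1)))) ^ m ≤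
      (K / 2 / k₀ : ℕ) * ((K / 2 / (m + 1) : ℕ) + 1) ^ m := by
    apply mul_le_mul h3 (pow_le_pow_left₀ (by positivity) h6 m) (by positivity) (by positivity)
  have h8 : ((K : ℝ) * (1 / (4 * k₀))) * ((K : ℝ) * (1 / (2 * (m + 1)))) ^ m =
      1 / (4 * k₀) * (1 / (2 * (m + 1))) ^ m * (K : ℝ) ^ (m + 1) := by
    rw [mul_pow, pow_succ]; ring
  rw [← h8]
  linarith

open MvPolynomial in
private lemma rga_main {L : Type} [Field L] [Algebra ℂ L] (D : Subalgebra ℂ L)
    (V : ℕ → Submodule ℂ L) (m : ℕ) (a : Fin (m + 1 + 1) → L)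
    (hVD : ∀ k, V k ≤ D.toSubmodule) (_hfd : ∀ k, FiniteDimensional ℂ (V k))
    (hV0 : V 0 = Submodule.span ℂ {1})
    (hmul : ∀ k k' f f', f ∈ V k → f' ∈ V k' → f * f' ∈ V (k + k'))
    (hfrac : ∀ y : L, ∃ u v : L, u ∈ D ∧ v ∈ D ∧ v ≠ 0 ∧ y = u / v)
    (hic : ∀ y : L, IsIntegral D y → y ∈ D)
    (ha : ∀ i, a i ∈ V 1) (hai : AlgebraicIndependent ℂ a)
    (hint : ∀ y ∈ D, IsIntegral (Algebra.adjoin ℂ (Set.range a)) y)
    (x : L) (k₀ : ℕ) (hxD : x ∉ D) (U : ℕ → Submodule ℂ L)
    (hUfd : ∀ k, FiniteDimensional ℂ (U k)) (hVU : ∀ k, V k ≤ U k)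
    (hU : ∀ i j, ∀ p ∈ V j, x ^ i * p ∈ U (i * k₀ + j)) (K i : ℕ) (hi : i * k₀ ≤ K / 2) :
    Module.finrank ℂ (V K) + i * (K / 2 / (m + 1) + 1) ^ m ≤ Module.finrank ℂ (U K) := by
  let P := MvPolynomial (Fin (m + 1 + 1)) ℂ
  let _ : Algebra P L := (aeval a).toRingHom.toAlgebra
  have halgmap : ∀ p : P, algebraMap P L p = aeval a p := fun p => rfl
  have hinj : Function.Injective (algebraMap P L) := hai
  have hintP : ∀ y ∈ D, IsIntegral P y := by
    intro y hy
    have h1 := hint y hy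
    have h2 : ∀ p : P, aeval a p ∈ Algebra.adjoin ℂ (Set.range a) := by
      intro p
      rw [Algebra.adjoin_range_eq_range_aeval]
      exact ⟨p, rfl⟩
    let f : P →+* Algebra.adjoin ℂ (Set.range a) :=
      (algebraMap P L).codRestrict (Algebra.adjoin ℂ (Set.range a)) h2
    refine rga_int' f ?_ ?_ y h1
    · ext z <;> rfl
    · rintro ⟨z, hz⟩
      have hz' := hz
      rw [Algebra.adjoin_range_eq_range_aeval] at hz'
      obtain ⟨p, hp⟩ := hz'
      exact ⟨p, Subtype.ext hp⟩
  have halg : IsAlgebraic P x := by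
    obtain ⟨u, v, hu, hv, hv0, rfl⟩ := hfrac x
    rw [div_eq_mul_inv]
    exact (hintP u hu).isAlgebraic.mul (hintP v hv).isAlgebraic.inv
  have haD : ∀ i, a i ∈ D := fun i => hVD 1 (ha i)
  have hPD : ∀ p : P, aeval a p ∈ D := by
    intro p
    have h1 : Algebra.adjoin ℂ (Set.range a) ≤ D := by
      rw [Algebra.adjoin_le_iff]
      rintro _ ⟨i, rfl⟩
      exact haD i
    apply h1
    rw [Algebra.adjoin_range_eq_range_aeval]
    exact ⟨p, rfl⟩
  have hnint : ¬ IsIntegral P x := by
    intro hx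
    apply hxD
    apply hic
    let f : P →+* D := (algebraMap P L).codRestrict D hPD
    refine rga_int f ?_ x hx
    ext z <;> rfl
  obtain ⟨g, A, hg, hA1, hA2, hxA⟩ := rga_val hinj x halg hnint
  have hDA : ∀ y ∈ D, A.valuation y ≤ 1 := by
    intro y hy
    rw [A.valuation_le_one_iff]
    have h1 := hintP y hy
    let f : P →+* A := (algebraMap P L).codRestrict A hA1
    have h2 : IsIntegral A y := by
      refine rga_int f ?_ y h1
      ext z <;> rfl
    obtain ⟨z, hz⟩ := IsIntegrallyClosed.isIntegral_iff.1 h2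
    rw [← hz]
    exact z.2
  have hx1 : 1 < A.valuation x := by
    rw [← not_le, A.valuation_le_one_iff]; exact hxA
  have hx0 : x ≠ 0 := by
    rintro rfl
    exact hxD D.zero_mem
  have h1V : (1 : L) ∈ V 0 := by rw [hV0]; exact Submodule.mem_span_singleton_self 1
  have hind : ∀ i : ℕ, i * k₀ ≤ K / 2 → ∃ S : Submodule ℂ L, S ≤ U K ∧
      (∀ s ∈ S, A.valuation s ≤ A.valuation x ^ i) ∧
      Module.finrank ℂ (V K) + i * (K / 2 / (m + 1) + 1) ^ m ≤ Module.finrank ℂ S := by
    intro i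
    induction i with
    | zero =>
      intro _
      refine ⟨V K, hVU K, ?_, by simp⟩
      intro s hs
      rw [pow_zero]
      exact hDA s (hVD K hs)
    | succ i ih =>
      intro hi
      have hle : i * k₀ ≤ (i + 1) * k₀ := Nat.mul_le_mul_right _ (Nat.le_succ i)
      obtain ⟨S, hSU, hSv, hSf⟩ := ih (hle.trans hi)
      obtain ⟨M, hMV, hMv, hMf, hMfd⟩ := rga_mono V m a h1V hmul ha hai A g hg hA1 hA2
        (K - (i + 1) * k₀)
      have hjK : (i + 1) * k₀ + (K - (i + 1) * k₀) = K := by omega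
      have hj2 : K / 2 ≤ K - (i + 1) * k₀ := by omega
      let ψ : L →ₗ[ℂ] L := LinearMap.mulLeft ℂ (x ^ (i + 1))
      have hψ : Function.Injective ψ := by
        intro p q hpq
        exact mul_left_cancel₀ (pow_ne_zero _ hx0) hpq
      have hMU : M.map ψ ≤ U K := by
        rintro _ ⟨p, hp, rfl⟩
        have h3 := hU (i + 1) _ p (hMV hp)
        rw [hjK] at h3
        exact h3
      have hfS : FiniteDimensional ℂ S := Submodule.finiteDimensional_of_le hSU
      have hfM : FiniteDimensional ℂ (M.map ψ) := Submodule.finiteDimensional_of_le hMU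
      have hMrank : Module.finrank ℂ (M.map ψ) = Module.finrank ℂ M :=
        (Submodule.equivMapOfInjective ψ hψ M).finrank_eq.symm
      have hinf : S ⊓ M.map ψ = ⊥ := by
        rw [Submodule.eq_bot_iff]
        rintro s ⟨hs1, p, hp, rfl⟩
        by_cases hp0 : p = 0
        · rw [hp0, map_zero]
        · exfalso
          have h4 := hSv _ hs1
          have h5 : A.valuation (ψ p) = A.valuation x ^ (i + 1) := by
            change A.valuation (x ^ (i + 1) * p) = _
            rw [map_mul, map_pow, hMv p hp hp0, mul_one]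
          rw [h5] at h4
          exact absurd h4 (not_le.2 (pow_lt_pow_right₀ hx1 (Nat.lt_succ_self i)))
      have hsum := Submodule.finrank_sup_add_finrank_inf_eq S (M.map ψ)
      rw [hinf, finrank_bot, add_zero, hMrank] at hsum
      refine ⟨S ⊔ M.map ψ, sup_le hSU hMU, ?_, ?_⟩
      · intro s hs
        obtain ⟨s1, hs1, s2, hs2, rfl⟩ := Submodule.mem_sup.1 hs
        obtain ⟨p, hp, rfl⟩ := hs2
        apply (A.valuation.map_add _ _).trans
        apply max_le
        · exact (hSv s1 hs1).trans (pow_le_pow_right₀ hx1.le (Nat.le_succ i))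
        · change A.valuation (x ^ (i + 1) * p) ≤ _
          rw [map_mul, map_pow]
          exact mul_le_of_le_one_right' (hDA p (hVD _ (hMV hp)))
      · rw [hsum]
        have h6 : (K / 2 / (m + 1) + 1) ^ m ≤ Module.finrank ℂ M :=
          (Nat.pow_le_pow_left (Nat.succ_le_succ (Nat.div_le_div_right hj2)) m).trans hMf
        rw [add_mul, one_mul]
        omega
  obtain ⟨S, hSU, -, hSf⟩ := hind i hi
  have := hUfd K
  exact hSf.trans (Submodule.finrank_mono hSU)

theorem hRGA : Pool.Agent.Helper68.KP.StRGA := by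
  intro L _ _ D V n a hn hVD hfd _ _ hV0 hmul _ hfrac hic ha hai hint x k₀ hk₀ hxD U hUfd hVU hU
  obtain ⟨m, rfl⟩ : ∃ m, n = m + 1 := ⟨n - 1, by omega⟩
  exact rga_fin k₀ m hk₀ (fun K => Module.finrank ℂ (U K)) (fun K => Module.finrank ℂ (V K))
    (fun K i hi => rga_main D V m a hVD hfd hV0 hmul hfrac hic ha hai hint x k₀ hxD U hUfd hVU hU
      K i hi)

end Pool.Agent.Helper41.KP
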